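import Pool.Agent.MWHP.StmtsP
import Pool.Agent.MWA.StmtsP
import Pool.Agent.Helper69_MWH.JPX

/-!
# MWHP row JPX: the join prime criterion for period `n` (MP_23468a_al)
-/

set_option autoImplicit false

namespace Pool.Agent.MWHP.H69

open Pool.Agent.Helper14_MV Pool.Agent.Helper2_MV Pool.Agent.MVO Pool.Agent.MWL Pool.Agent.MWS
open Pool.Agent.MWA Pool.Agent.MWH Pool.Agent.MWHP
open Pool.Agent.MWH.H69 (bef_append bef_of_not_mem_fst bef_of_not_mem_snd not_bef_both le_deg
  deg_sh len_two bef01 bef10)

/-- normal form of a family -/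
theorem to_W (hNFE : MWHP.NfeStmt) (hOKW : MWH.OkwStmt) {n : ℕ} {β : FIC} (hβ : BaseH n β) {k : ℕ}
    {a b : ℕ → ℕ} {i : ℕ} (hV : Vd k a b i) {s : Stt} (hs : Vs a b i s) {C : ℕ → List ℕ}
    (h01 : Two01 k C) (h0 : ∀ j ≤ k, (C j).count 0 = a j) (h1 : ∀ j ≤ k, (C j).count 1 = b j)
    (hf1 : Bef (C i) 0 1 ↔ s = Stt.xy) (hf2 : Bef (C i) 1 0 ↔ s = Stt.yx) :
    RR β (asm k C) (asm k (W a b i s)) := by
  obtain ⟨hok, hw01, hcnt, hmem, hb1, hb2⟩ := hOKW k a b i s hV hs
  have hns0 : NS k 0 := fun h => by omega
  have hns1 : NS k 1 := fun h => by omega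
  have hokC : OkB k C := by
    refine ⟨?_, ?_⟩
    · intro j hj c hc
      rcases h01 j hj c hc with rfl | rfl
      · exact hns0
      · exact hns1
    · intro j hj c hc
      rcases h01 j hj c hc with rfl | rfl
      · have h2 := hV.da
        have h3 : deg k (fun j => (C j).count 0) = deg k a := by
          unfold deg
          apply Finset.sum_congr rfl
          intro t ht
          rw [Finset.mem_range] at ht
          exact h0 t (by omega)
        omega
      · have h2 := hV.db
        have h3 : deg k (fun j => (C j).count 1) = deg k b := by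
          unfold deg
          apply Finset.sum_congr rfl
          intro t ht
          rw [Finset.mem_range] at ht
          exact h1 t (by omega)
        omega
  apply hNFE n β hβ k C (W a b i s) hokC hok
  · intro c _ j hj
    left
    show (C j).count c = (W a b i s j).count c
    by_cases hc0 : c = 0
    · subst hc0
      rw [h0 j hj, (hcnt j).1]
    · by_cases hc1 : c = 1
      · subst hc1
        rw [h1 j hj, (hcnt j).2]
      · rw [List.count_eq_zero_of_not_mem, List.count_eq_zero_of_not_mem]
        · intro h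
          rcases hmem j c h with h | h
          · exact hc0 h
          · exact hc1 h
        · intro h
          rcases h01 j hj c h with h | h
          · exact hc0 h
          · exact hc1 h
  · intro i' hi' x y hxy hx hy _
    have hi'i : 0 ∈ C i' → 1 ∈ C i' → i' = i := by
      intro hm0 hm1
      by_contra hne
      have h3 : a i' ≠ 0 := by
        have := h0 i' hi'
        have h5 : 0 < (C i').count 0 := List.count_pos_iff.2 hm0
        omega
      have h4 : b i' ≠ 0 := by
        have h6 := h1 i' hi'
        have h5 : 0 < (C i').count 1 := List.count_pos_iff.2 hm1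
        omega
      rcases hV.un i' hi' hne with h | h
      · exact h3 h
      · exact h4 h
    rcases h01 i' hi' x hx with rfl | rfl
    · rcases h01 i' hi' y hy with rfl | rfl
      · exact absurd rfl hxy
      · have := hi'i hx hy
        subst this
        rw [hf1, hb1]
    · rcases h01 i' hi' y hy with rfl | rfl
      · have := hi'i hy hx
        subst this
        rw [hf2, hb2]
      · exact absurd rfl hxy

theorem vd_sh {k : ℕ} {a b c : ℕ → ℕ} {i : ℕ} (hV : Vd k a b i) (h : Sh k b c) : Vd k a c i := by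
  refine ⟨hV.ik, hV.ai, ?_, ?_, hV.da, deg_sh h hV.db⟩
  · have h1 := hV.bi
    rcases h i hV.ik with h2 | ⟨_, h2⟩ <;> omega
  · intro j hj hne
    rcases hV.un j hj hne with h1 | h1
    · exact Or.inl h1
    · right
      rcases h j hj with h2 | ⟨h2, _⟩ <;> omega

theorem vs_sh {k : ℕ} {a b c : ℕ → ℕ} {i : ℕ} (hi : i ≤ k) (h : Sh k b c) {s : Stt}
    (hs : Vs a b i s) : Vs a c i s := by
  intro hov
  rcases hs hov with h1 | h1
  · exact Or.inl h1
  · right
    rcases h i hi with h2 | ⟨_, h2⟩ <;> omega

/-- a relation of two families with the shapes of `a, b` gives a transition -/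
theorem key (hONE : MVO.OneStmt) (hNFE : MWHP.NfeStmt) (hOKW : MWH.OkwStmt)
    (hSHW : MWHP.ShwStmt) (hRES : MWHP.ResStmt) {n : ℕ} {β θ : FIC} (hβ : BaseH n β)
    (hθ : β ≤ θ) {k : ℕ} {a b : ℕ → ℕ} {i : ℕ} (hV : Vd k a b i) {s s' : Stt}
    (hs : Vs a b i s) (hs' : Vs a b i s') {C C' : ℕ → List ℕ} (h01 : Two01 k C)
    (h01' : Two01 k C') (h0 : ∀ j ≤ k, (C j).count 0 = a j) (h0' : ∀ j ≤ k, (C' j).count 0 = a j)
    (h1 : Sh k b (fun j => (C j).count 1)) (h1' : Sh k b (fun j => (C' j).count 1))
    (hf1 : Bef (C i) 0 1 ↔ s = Stt.xy) (hf2 : Bef (C i) 1 0 ↔ s = Stt.yx)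
    (hf1' : Bef (C' i) 0 1 ↔ s' = Stt.xy) (hf2' : Bef (C' i) 1 0 ↔ s' = Stt.yx)
    (hr : RR θ (asm k C) (asm k C')) : Tr θ k a b i s s' := by
  have hns0 : NS k 0 := fun h => by omega
  have hns1 : NS k 1 := fun h => by omega
  have hokC : ∀ {D : ℕ → List ℕ}, Two01 k D → BlkOk k D := by
    intro D hD j hj c hc
    rcases hD j hj c hc with rfl | rfl
    · exact hns0
    · exact hns1
  have hVc := vd_sh hV h1
  have hVc' := vd_sh hV h1'
  have e1 := to_W hNFE hOKW hβ hVc (vs_sh hV.ik h1 hs) h01 h0 (fun _ _ => rfl) hf1 hf2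
  have e2 := to_W hNFE hOKW hβ hVc' (vs_sh hV.ik h1' hs') h01' h0' (fun _ _ => rfl) hf1' hf2'
  have hL := hONE.1 θ k C C' 1 hns1 (hokC h01) (hokC h01') hr
  have hL' : L1 θ k (fun j => (C' j).count 1) (fun j => (C j).count 1) := RR.symm hL
  have hSh : Sh k (fun j => (C' j).count 1) (fun j => (C j).count 1) := by
    intro j hj
    have h2 := h1 j hj
    have h3 := h1' j hj
    simp only at h2 h3 ⊢
    omega
  have e3 := hRES n β θ hβ hθ k a _ _ i hVc' hVc hSh hL' s' (vs_sh hV.ik h1' hs')
  have e4 : Tr θ k a (fun j => (C j).count 1) i s s' :=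
    θ.trans (RR.symm (hθ _ _ e1)) (θ.trans hr (θ.trans (hθ _ _ e2) e3))
  exact (hSHW n β θ hβ hθ k a b a _ i hV hVc (fun _ _ => Or.inl rfl) h1 s s' hs hs').2 e4

open Classical in
theorem jpx (hONE : MVO.OneStmt) (hTRN : MWL.TrnStmt) (hABS : MWL.AbsStmt) (hKEY : MWL.KeyStmt)
    (hLRNN : MWHP.LrnnStmt) (hNDQ : MWA.NdqStmt) (hJPIN : MWHP.JpinStmt) (hNFE : MWHP.NfeStmt)
    (hOKW : MWH.OkwStmt) (hSHW : MWHP.ShwStmt) (hRES : MWHP.ResStmt) : MWHP.JpxStmt := by
  intro n β hβ k a b i F hV hF s s' hcase hab
  have hns0 : NS k 0 := fun h => by omega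
  have hns1 : NS k 1 := fun h => by omega
  have hs : Vs a b i s := by
    rintro rfl
    rcases hcase with ⟨_, _, h, _⟩ | ⟨_, h, _⟩ | ⟨_, h, _⟩ <;> simp at h
  have hs' : Vs a b i s' := by
    rintro rfl
    rcases hcase with ⟨_, _, _, h⟩ | ⟨h, _, _⟩ | ⟨h, _, _⟩
    · simp at h
    · exact Or.inr (hF i hV.ik h)
    · exact Or.inr (hF i hV.ik h)
  obtain ⟨hok, hw01, hcnt, hmem, hb1, hb2⟩ := hOKW k a b i s hV hs
  obtain ⟨hok', hw01', hcnt', hmem', hb1', hb2'⟩ := hOKW k a b i s' hV hs'
  refine hJPIN n β hβ.toBasN k (W a b i s) (W a b i s')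
    (fun B => (∀ j ≤ k, (B j).count 0 = a j) ∧ (∀ j ≤ k, ¬ F j → (B j).count 1 = b j) ∧
      (s = Stt.xy → Bef (B i) 0 1) ∧ (s = Stt.yx → Bef (B i) 1 0)) hok hok' hw01 ?_ ?_ ?_ ?_
  · exact ⟨fun j _ => (hcnt j).1, fun j _ _ => (hcnt j).2, hb1.2, hb2.2⟩
  · rintro ⟨_, _, h3, h4⟩
    rcases hcase with ⟨_, _, h, h'⟩ | ⟨_, h, h'⟩ | ⟨_, h, h'⟩
    · have := hb1'.1 (h3 h)
      rw [h'] at this
      simp at this
    · have := hb1'.1 (h3 h)
      rw [h'] at this
      simp at this
    · have := hb2'.1 (h4 h)
      rw [h'] at this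
      simp at this
  · rintro B B' hBB ⟨h1, h2, h3, h4⟩
    refine ⟨fun j hj => by rw [← hBB j hj]; exact h1 j hj,
      fun j hj hj' => by rw [← hBB j hj]; exact h2 j hj hj', fun h => ?_, fun h => ?_⟩
    · rw [← hBB i hV.ik]
      exact h3 h
    · rw [← hBB i hV.ik]
      exact h4 h
  · intro θ hθ hNC hnTr B B' hB hB' hB01 hB01' hr hA
    obtain ⟨hA0, hA1, hA2, hA3⟩ := hA
    obtain ⟨hab0, hab1⟩ := hab θ hθ hNC hnTr
    have hLR := hLRNN n β θ hβ.toBasN hθ
    have hND := hNDQ β θ hβ.toBasN.cap hθ hNC
    have hn : 1 ≤ n := hβ.toBasN.pos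
    -- the letter 0
    have hL0 : L1 θ k (ty B 0) (ty B' 0) := hONE.1 θ k B B' 0 hns0 hB.ok hB'.ok hr
    have hL1 : L1 θ k (ty B 1) (ty B' 1) := hONE.1 θ k B B' 1 hns1 hB.ok hB'.ok hr
    have hA0' : ∀ j ≤ k, (B' j).count 0 = a j := by
      intro j hj
      have h1 : ¬ Ab n (FC.ofFIC θ) k (ty B 0) j := by
        intro h
        exact hab0 j hj (((hTRN n (FC.ofFIC θ) k (ty B 0) j).2.2.1 a hA0).1 h)
      have h2 := hKEY n (FC.ofFIC θ) hLR hND k (ty B 0) (ty B' 0) hL0 j hj h1
      have h3 := hA0 j hj
      unfold ty at h2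
      omega
    -- the letter 1
    have hA1' : ∀ j ≤ k, ¬ F j → (B' j).count 1 = b j := by
      intro j hj hFj
      have h1 : ¬ Ab n (FC.ofFIC θ) k (ty B 1) j := by
        intro h
        have h2 := (hTRN n (FC.ofFIC θ) k (ty B 1) j).2.1
          (fun t => if F t then (n - 1) * ty B 1 t + b t else 0) h
        have h3 : (FC.ofFIC θ).R k
            (fun t => ty B 1 t + if F t then (n - 1) * ty B 1 t + b t else 0) b := by
          apply (hABS n (FC.ofFIC θ) hLR k _).2
          intro t ht
          by_cases hFt : F t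
          · right
            have hbt := hF t ht hFt
            refine ⟨⟨?_, t, le_refl t, ?_⟩, ⟨?_, t, le_refl t, hbt⟩, ?_⟩
            · simp only [if_pos hFt]
              omega
            · simp only [if_pos hFt]
              omega
            · omega
            · simp only [if_pos hFt]
              obtain ⟨m, rfl⟩ : ∃ m, n = m + 1 := ⟨n - 1, by omega⟩
              have he : ty B 1 t + ((m + 1 - 1) * ty B 1 t + b t) =
                  b t + (m + 1) * ty B 1 t := by
                rw [Nat.add_sub_cancel]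
                ring
              rw [he]
              unfold Nat.ModEq
              rw [Nat.add_mul_mod_self_left]
          · left
            simp only [if_neg hFt]
            exact hA1 t ht hFt
        have h4 := ((hTRN n (FC.ofFIC θ) k _ j).1 b h3).1 h2
        exact hab1 j hj hFj h4
      have h2 := hKEY n (FC.ofFIC θ) hLR hND k (ty B 1) (ty B' 1) hL1 j hj h1
      have h3 := hA1 j hj hFj
      unfold ty at h2
      omega
    have hm0 : 0 ∈ B i := by
      have h1 := hA0 i hV.ik
      have h2 := hV.ai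
      exact List.count_pos_iff.1 (by omega)
    have hm0' : 0 ∈ B' i := by
      have h1 := hA0' i hV.ik
      have h2 := hV.ai
      exact List.count_pos_iff.1 (by omega)
    refine ⟨hA0', hA1', ?_, ?_⟩
    · intro hxy
      by_contra hnb
      -- insert at the end
      have hins := rr_ins' θ (fun _ => []) (fun j => if F j then [1, 1] else []) hB.ok hB'.ok hr
      simp only [List.nil_append] at hins
      have p1 : ∀ C : ℕ → List ℕ, Two01 k C →
          Two01 k (fun j => C j ++ if F j then [1, 1] else []) := by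
        intro C hC01 j hj c hc
        rcases List.mem_append.1 hc with hc | hc
        · exact hC01 j hj c hc
        · by_cases hFj : F j
          · rw [if_pos hFj] at hc
            right
            simpa using hc
          · rw [if_neg hFj] at hc
            simp at hc
      have p2 : ∀ C : ℕ → List ℕ, (∀ j ≤ k, (C j).count 0 = a j) →
          ∀ j ≤ k, (C j ++ if F j then [1, 1] else []).count 0 = a j := by
        intro C hC0 j hj
        have h1 := hC0 j hj
        by_cases hFj : F j
        · simp [hFj, h1]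
        · simp [hFj, h1]
      have p3 : ∀ C : ℕ → List ℕ, (∀ j ≤ k, ¬ F j → (C j).count 1 = b j) →
          Sh k b (fun j => (C j ++ if F j then [1, 1] else []).count 1) := by
        intro C hC1 j hj
        by_cases hFj : F j
        · right
          refine ⟨hF j hj hFj, ?_⟩
          simp [hFj]
        · left
          have h1 := hC1 j hj hFj
          simp [hFj, h1]
      have fin := fun (e1 : Bef (B i ++ if F i then [1, 1] else []) 0 1 ↔ s = Stt.xy)
          (e2 : Bef (B i ++ if F i then [1, 1] else []) 1 0 ↔ s = Stt.yx)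
          (e3 : Bef (B' i ++ if F i then [1, 1] else []) 0 1 ↔ s' = Stt.xy)
          (e4 : Bef (B' i ++ if F i then [1, 1] else []) 1 0 ↔ s' = Stt.yx) =>
        key hONE hNFE hOKW hSHW hRES hβ hθ hV hs hs' (p1 B hB01) (p1 B' hB01') (p2 B hA0)
          (p2 B' hA0') (p3 B hA1) (p3 B' hA1') e1 e2 e3 e4 hins
      rcases hcase with ⟨hai, hbi, _, hyx⟩ | ⟨hFi, _, hov⟩ | ⟨_, hcon, _⟩
      · -- case (i)
        have hFi : ¬ F i := by
          intro h
          have := hF i hV.ik h
          omega
        have hc0 := hA0 i hV.ik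
        have hc1 := hA1 i hV.ik hFi
        have hc0' := hA0' i hV.ik
        have hc1' := hA1' i hV.ik hFi
        have hBi : B' i = [1, 0] := by
          rcases len_two (hB01' i hV.ik) (by omega) (by omega) with h | h
          · exfalso
            apply hnb
            rw [h]
            exact bef01
          · exact h
        have hm1 : 1 ∈ B i := List.count_pos_iff.1 (by omega)
        apply hnTr
        apply fin
        · rw [if_neg hFi, List.append_nil]
          exact ⟨fun _ => hxy, fun _ => hA2 hxy⟩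
        · rw [if_neg hFi, List.append_nil, hxy]
          exact ⟨fun h => (not_bef_both (by omega) hm0 hm1 (hA2 hxy) h).elim,
            fun h => by simp at h⟩
        · rw [if_neg hFi, List.append_nil, hyx]
          exact ⟨fun h => absurd h hnb, fun h => by simp at h⟩
        · rw [if_neg hFi, List.append_nil, hBi, hyx]
          exact ⟨fun _ => rfl, fun _ => bef10⟩
      · -- case (ii)
        have hb11 : Bef [1, 1] 0 1 := bef_of_not_mem_fst (by simp)
        apply hnTr
        apply fin
        · rw [if_pos hFi, bef_append, hxy]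
          exact ⟨fun _ => rfl, fun _ => ⟨hA2 hxy, hb11, fun _ => by simp⟩⟩
        · rw [if_pos hFi, bef_append, hxy]
          exact ⟨fun h => absurd (by simp) (h.2.2 hm0), fun h => by simp at h⟩
        · rw [if_pos hFi, bef_append, hov]
          exact ⟨fun h => absurd h.1 hnb, fun h => by simp at h⟩
        · rw [if_pos hFi, bef_append, hov]
          exact ⟨fun h => absurd (by simp) (h.2.2 hm0'), fun h => by simp at h⟩
      · rw [hxy] at hcon
        simp at hcon
    · intro hyx
      by_contra hnb
      -- insert in front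
      have hins := rr_ins' θ (fun j => if F j then [1, 1] else []) (fun _ => []) hB.ok hB'.ok hr
      simp only [List.append_nil] at hins
      have p1 : ∀ C : ℕ → List ℕ, Two01 k C →
          Two01 k (fun j => (if F j then [1, 1] else []) ++ C j) := by
        intro C hC01 j hj c hc
        rcases List.mem_append.1 hc with hc | hc
        · by_cases hFj : F j
          · rw [if_pos hFj] at hc
            right
            simpa using hc
          · rw [if_neg hFj] at hc
            simp at hc
        · exact hC01 j hj c hc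
      have p2 : ∀ C : ℕ → List ℕ, (∀ j ≤ k, (C j).count 0 = a j) →
          ∀ j ≤ k, ((if F j then [1, 1] else []) ++ C j).count 0 = a j := by
        intro C hC0 j hj
        have h1 := hC0 j hj
        by_cases hFj : F j
        · simp [hFj, h1]
        · simp [hFj, h1]
      have p3 : ∀ C : ℕ → List ℕ, (∀ j ≤ k, ¬ F j → (C j).count 1 = b j) →
          Sh k b (fun j => ((if F j then [1, 1] else []) ++ C j).count 1) := by
        intro C hC1 j hj
        by_cases hFj : F j
        · right
          refine ⟨hF j hj hFj, ?_⟩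
          simp [hFj]
        · left
          have h1 := hC1 j hj hFj
          simp [hFj, h1]
      have fin := fun (e1 : Bef ((if F i then [1, 1] else []) ++ B i) 0 1 ↔ s = Stt.xy)
          (e2 : Bef ((if F i then [1, 1] else []) ++ B i) 1 0 ↔ s = Stt.yx)
          (e3 : Bef ((if F i then [1, 1] else []) ++ B' i) 0 1 ↔ s' = Stt.xy)
          (e4 : Bef ((if F i then [1, 1] else []) ++ B' i) 1 0 ↔ s' = Stt.yx) =>
        key hONE hNFE hOKW hSHW hRES hβ hθ hV hs hs' (p1 B hB01) (p1 B' hB01') (p2 B hA0)
          (p2 B' hA0') (p3 B hA1) (p3 B' hA1') e1 e2 e3 e4 hins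
      rcases hcase with ⟨_, _, hcon, _⟩ | ⟨_, hcon, _⟩ | ⟨hFi, _, hov⟩
      · rw [hyx] at hcon
        simp at hcon
      · rw [hyx] at hcon
        simp at hcon
      · have hb11 : Bef [1, 1] 1 0 := bef_of_not_mem_snd (by simp)
        apply hnTr
        apply fin
        · rw [if_pos hFi, bef_append, hyx]
          exact ⟨fun h => absurd hm0 (h.2.2 (by simp)), fun h => by simp at h⟩
        · rw [if_pos hFi, bef_append, hyx]
          exact ⟨fun _ => rfl, fun _ => ⟨hb11, hA3 hyx, fun h => by simp at h⟩⟩
        · rw [if_pos hFi, bef_append, hov]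
          exact ⟨fun h => absurd hm0' (h.2.2 (by simp)), fun h => by simp at h⟩
        · rw [if_pos hFi, bef_append, hov]
          exact ⟨fun h => absurd h.2.1 hnb, fun h => by simp at h⟩

end Pool.Agent.MWHP.H69
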